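import Mathlib

/-!
# A graph `G` for which `G^{1/(μ(G)+1)}` is not cop-winnable in the probe game

Let `G` consist of a clique on the `780` two-element subsets of a `40`-element set and of `40`
further vertices (landmarks), where landmark `i` is adjacent to the subsets that do not contain `i`.
The landmarks resolve `G`, so `μ(G) ≤ 40`.  For every `m` with `1 ≤ m ≤ 41` the robber evades the
cop on `G^{1/m}`: he walks forever between clique vertices.  While he is in the first half of an
edge, the probes near a landmark tell (almost) nothing about the other end of the edge.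
-/

namespace Pool.Agent.Results.MP_e8bb91_co.SubdividedNotWinnable

open SimpleGraph

/-! ### Definitions -/

section Defs

/-- `W` resolves `G`: the distances to the elements of `W` determine a vertex. -/
def Resolving {V : Type*} (G : SimpleGraph V) (W : Finset V) : Prop :=
  ∀ x y, (∀ w ∈ W, G.dist x w = G.dist y w) → x = y

/-- The metric dimension. -/
noncomputable def metricDim {V : Type*} (G : SimpleGraph V) : ℕ :=
  sInf {k | ∃ W : Finset V, W.card = k ∧ Resolving G W}

variable {V : Type*} [DecidableEq V]

/-- The point at distance `i` from `u` on a path of length `m` from `u` to `v`, written as the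
weight function `(m - i) • u + i • v`. -/
def pt (m : ℕ) (u v : V) (i : ℕ) : V → ℕ := Pi.single u (m - i) + Pi.single v i

/-- The vertices of `G^{1/m}`: the points on the edges of `G`, and the vertices of `G`
(for `u = v`). -/
def PowVertex (G : SimpleGraph V) (m : ℕ) : Type _ :=
  {f : V → ℕ // ∃ u v i, (u = v ∨ G.Adj u v) ∧ i ≤ m ∧ f = pt m u v i}

/-- The graph `G^{1/m}` obtained from `G` by replacing every edge by a path of length `m`: two
points are adjacent if they are consecutive points of an edge. -/
def Pow (G : SimpleGraph V) (m : ℕ) : SimpleGraph (PowVertex G m) where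
  Adj f g := ∃ u v i, G.Adj u v ∧ i < m ∧
    ((f.1 = pt m u v i ∧ g.1 = pt m u v (i + 1)) ∨ (g.1 = pt m u v i ∧ f.1 = pt m u v (i + 1)))
  symm := ⟨fun _ _ ⟨u, v, i, h1, h2, h3⟩ => ⟨u, v, i, h1, h2, h3.symm⟩⟩
  loopless := ⟨by
    rintro f ⟨u, v, i, h1, h2, ⟨h3, h4⟩ | ⟨h3, h4⟩⟩
    all_goals
      rw [h3] at h4
      have := congrFun h4 v
      simp [pt, h1.ne'] at this⟩

/-- The list of the answers in the first `n` rounds, for the probing strategy `σ` (a function of
the previous answers) and the positions `r 0, r 1, …` of the robber. -/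
noncomputable def answers {X : Type*} (H : SimpleGraph X) (σ : List ℕ → X) (r : ℕ → X) :
    ℕ → List ℕ
  | 0 => []
  | n + 1 => answers H σ r n ++ [H.dist (σ (answers H σ r n)) (r n)]

/-- The robber stays or moves along an edge between two rounds. -/
def Legal {X : Type*} (H : SimpleGraph X) (r : ℕ → X) : Prop :=
  ∀ t, r t = r (t + 1) ∨ H.Adj (r t) (r (t + 1))

/-- `H` is cop-winnable in the probe game: there is a probing strategy `σ` such that for every
sequence `r` of positions of the robber there is a round `t` in which the answers leave exactly one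
possibility for his position. -/
def CopWinnable {X : Type*} (H : SimpleGraph X) : Prop :=
  ∃ σ : List ℕ → X, ∀ r, Legal H r → ∃ t, ∀ r', Legal H r' →
    answers H σ r' (t + 1) = answers H σ r (t + 1) → r' t = r t

end Defs

/-! ### Points and distances in `G^{1/m}` -/

section Points

variable {V : Type*} [DecidableEq V] {G : SimpleGraph V} {m : ℕ}

theorem pt_symm {u v : V} {i : ℕ} (hi : i ≤ m) : pt m u v i = pt m v u (m - i) := by
  unfold pt
  rw [add_comm, Nat.sub_sub_self hi]

theorem pt_self {u : V} {i : ℕ} (hi : i ≤ m) : pt m u u i = Pi.single u m := by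
  unfold pt
  rw [← Pi.single_add, Nat.sub_add_cancel hi]

theorem pt_zero {u v : V} : pt m u v 0 = Pi.single u m := by
  unfold pt
  simp

theorem pt_top {u v : V} : pt m u v m = Pi.single v m := by
  unfold pt
  simp

theorem pt_left {u v : V} (h : u ≠ v) (i : ℕ) : pt m u v i u = m - i := by
  simp [pt, h]

theorem pt_right {u v : V} (h : u ≠ v) (i : ℕ) : pt m u v i v = i := by
  simp [pt, h.symm]

theorem pt_other {u v w : V} (h1 : w ≠ u) (h2 : w ≠ v) (i : ℕ) : pt m u v i w = 0 := by
  simp [pt, h1, h2]

/-- The point as a vertex of `G^{1/m}`. -/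
def mk (m : ℕ) {u v : V} (h : G.Adj u v) (i : ℕ) : PowVertex G m :=
  ⟨pt m u v (min i m), u, v, min i m, Or.inr h, min_le_right _ _, rfl⟩

/-- The branch vertex. -/
def br (G : SimpleGraph V) (m : ℕ) (u : V) : PowVertex G m :=
  ⟨Pi.single u m, u, u, 0, Or.inl rfl, Nat.zero_le _, (pt_self (Nat.zero_le _)).symm⟩

theorem mk_val {u v : V} (h : G.Adj u v) {i : ℕ} (hi : i ≤ m) : (mk m h i).1 = pt m u v i := by
  simp [mk, min_eq_left hi]

theorem mk_zero {u v : V} (h : G.Adj u v) : mk m h 0 = br G m u := by
  apply Subtype.ext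
  rw [mk_val h (Nat.zero_le _), pt_zero]
  rfl

theorem mk_top {u v : V} (h : G.Adj u v) : mk m h m = br G m v := by
  apply Subtype.ext
  rw [mk_val h le_rfl, pt_top]
  rfl

theorem adj_mk {u v : V} (h : G.Adj u v) {i : ℕ} (hi : i < m) :
    (Pow G m).Adj (mk m h i) (mk m h (i + 1)) :=
  ⟨u, v, i, h, hi, Or.inl ⟨mk_val h hi.le, mk_val h hi⟩⟩

theorem br_injective (hm : 0 < m) : Function.Injective (br G m) := by
  intro u v h
  by_contra hne
  have := congrFun (congrArg Subtype.val h) u
  simp [br, hne] at this
  omega

theorem exists_walk {u v : V} (h : G.Adj u v) {i j : ℕ} (hij : i ≤ j) (hj : j ≤ m) :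
    ∃ p : (Pow G m).Walk (mk m h i) (mk m h j), p.length = j - i := by
  induction j with
  | zero =>
    obtain rfl : i = 0 := by omega
    exact ⟨Walk.nil, rfl⟩
  | succ j ih =>
    rcases Nat.lt_or_ge j i with hlt | hge
    · obtain rfl : i = j + 1 := by omega
      exact ⟨Walk.nil, by simp⟩
    · obtain ⟨p, hp⟩ := ih hge (by omega)
      refine ⟨p.concat (adj_mk h (by omega)), ?_⟩
      rw [Walk.length_concat, hp]
      omega

/-- Distances on an edge, upper bound. -/
theorem dist_mk_le {u v : V} (h : G.Adj u v) {i j : ℕ} (hij : i ≤ j) (hj : j ≤ m) :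
    (Pow G m).dist (mk m h i) (mk m h j) ≤ j - i := by
  obtain ⟨p, hp⟩ := exists_walk h hij hj
  rw [← hp]
  exact dist_le p

theorem reachable_br (hG : G.Connected) (u v : V) : (Pow G m).Reachable (br G m u) (br G m v) := by
  obtain ⟨p⟩ := hG.preconnected u v
  induction p with
  | nil => exact Reachable.refl _
  | cons h p ih =>
    obtain ⟨q, -⟩ := exists_walk (m := m) h (Nat.zero_le m) le_rfl
    rw [mk_zero, mk_top] at q
    exact (Walk.reachable q).trans ih

theorem eq_mk_or (f : PowVertex G m) :
    (∃ u, f = br G m u) ∨ ∃ u v, ∃ h : G.Adj u v, ∃ i ≤ m, f = mk m h i := by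
  obtain ⟨f, u, v, i, h | h, hi, rfl⟩ := f
  · left
    subst h
    exact ⟨u, Subtype.ext (pt_self hi)⟩
  · right
    exact ⟨u, v, h, i, hi, Subtype.ext (mk_val h hi).symm⟩

theorem connected_pow (hG : G.Connected) : (Pow G m).Connected := by
  obtain ⟨w⟩ := hG.nonempty
  have hr : ∀ f, (Pow G m).Reachable (br G m w) f := by
    intro f
    rcases eq_mk_or f with ⟨u, rfl⟩ | ⟨u, v, h, i, hi, rfl⟩
    · exact reachable_br hG w u
    · obtain ⟨q, -⟩ := exists_walk (m := m) h (Nat.zero_le i) hi
      rw [mk_zero] at q
      exact (reachable_br hG w u).trans (Walk.reachable q)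
  have : Nonempty (PowVertex G m) := ⟨br G m w⟩
  exact Connected.mk fun f g => (hr f).symm.trans (hr g)

theorem dist_br_adj_le {u v : V} (h : G.Adj u v) :
    (Pow G m).dist (br G m u) (br G m v) ≤ m := by
  have := dist_mk_le (m := m) h (Nat.zero_le m) le_rfl
  rwa [mk_zero, mk_top, Nat.sub_zero] at this

theorem dist_br_le (hG : G.Connected) (u v : V) :
    (Pow G m).dist (br G m u) (br G m v) ≤ m * G.dist u v := by
  obtain ⟨p, hp⟩ := hG.exists_walk_length_eq_dist u v
  rw [← hp]
  clear hp
  induction p with
  | nil => simp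
  | @cons a b c h p ih =>
    have h1 := (connected_pow (m := m) hG).dist_triangle (u := br G m a) (v := br G m b)
      (w := br G m c)
    have h2 := dist_br_adj_le (m := m) h
    rw [Walk.length_cons, mul_add, mul_one]
    omega

variable [Fintype V]

/-- The linear extension of the distance to `y`. -/
noncomputable def pot (G : SimpleGraph V) (y : V) (f : V → ℕ) : ℕ := ∑ v, f v * G.dist y v

theorem pot_pt (y : V) (u v : V) (i : ℕ) :
    pot G y (pt m u v i) = (m - i) * G.dist y u + i * G.dist y v := by
  simp only [pot, pt, Pi.add_apply, add_mul, Finset.sum_add_distrib]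
  congr 1
  · rw [Finset.sum_eq_single u]
    · simp
    · intro w _ hw
      simp [hw]
    · simp
  · rw [Finset.sum_eq_single v]
    · simp
    · intro w _ hw
      simp [hw]
    · simp

theorem pot_adj (hG : G.Connected) (y : V) {f g : PowVertex G m} (h : (Pow G m).Adj f g) :
    pot G y g.1 ≤ pot G y f.1 + 1 := by
  have key : ∀ (u v : V) (i : ℕ), G.Adj u v → i < m →
      pot G y (pt m u v (i + 1)) ≤ pot G y (pt m u v i) + 1 ∧
      pot G y (pt m u v i) ≤ pot G y (pt m u v (i + 1)) + 1 := by
    intro u v i h hi
    rw [pot_pt, pot_pt]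
    have h1 : G.dist y v ≤ G.dist y u + 1 := by
      have := hG.dist_triangle (u := y) (v := u) (w := v)
      rwa [dist_eq_one_iff_adj.2 h] at this
    have h2 : G.dist y u ≤ G.dist y v + 1 := by
      have := hG.dist_triangle (u := y) (v := v) (w := u)
      rwa [dist_eq_one_iff_adj.2 h.symm] at this
    obtain ⟨k, rfl⟩ : ∃ k, m = i + 1 + k := ⟨m - (i + 1), by omega⟩
    rw [show i + 1 + k - (i + 1) = k by omega, show i + 1 + k - i = k + 1 by omega]
    constructor <;> nlinarith
  obtain ⟨u, v, i, h1, h2, ⟨h3, h4⟩ | ⟨h3, h4⟩⟩ := h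
  · rw [h3, h4]
    exact (key u v i h1 h2).1
  · rw [h3, h4]
    exact (key u v i h1 h2).2

theorem pot_walk (hG : G.Connected) (y : V) {f g : PowVertex G m} (p : (Pow G m).Walk f g) :
    pot G y g.1 ≤ pot G y f.1 + p.length := by
  induction p with
  | nil => simp
  | cons h p ih =>
    have := pot_adj hG y h
    rw [Walk.length_cons]
    omega

theorem dist_br (hG : G.Connected) (u v : V) :
    (Pow G m).dist (br G m u) (br G m v) = m * G.dist u v := by
  apply le_antisymm (dist_br_le hG u v)
  obtain ⟨p, hp⟩ := (connected_pow (m := m) hG).exists_walk_length_eq_dist (br G m u) (br G m v)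
  rw [← hp]
  have h := pot_walk hG u p
  have h1 : pot G u (br G m v).1 = m * G.dist u v := by
    have : (br G m v).1 = pt m v v 0 := pt_zero.symm
    rw [this, pot_pt]
    simp
  have h2 : pot G u (br G m u).1 = 0 := by
    have : (br G m u).1 = pt m u u 0 := pt_zero.symm
    rw [this, pot_pt]
    simp
  omega

omit [Fintype V] in
/-- The neighbours of an interior point of an edge. -/
theorem adj_interior {u v : V} (h : G.Adj u v) {i : ℕ} (hi0 : 0 < i) (him : i < m)
    {g : PowVertex G m} (hg : (Pow G m).Adj (mk m h i) g) :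
    g = mk m h (i - 1) ∨ g = mk m h (i + 1) := by
  have huv : u ≠ v := h.ne
  -- two representations of the same interior point
  have key : ∀ (u' v' : V) (j : ℕ), G.Adj u' v' → j ≤ m → pt m u v i = pt m u' v' j →
      (u' = u ∧ v' = v ∧ j = i) ∨ (u' = v ∧ v' = u ∧ j = m - i) := by
    intro u' v' j h' hj he
    have huv' : u' ≠ v' := h'.ne
    have e1 := congrFun he u
    have e2 := congrFun he v
    rw [pt_left huv] at e1
    rw [pt_right huv] at e2
    have hu : u = u' ∨ u = v' := by
      by_contra hno
      push Not at hno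
      rw [pt_other hno.1 hno.2] at e1
      omega
    have hv : v = u' ∨ v = v' := by
      by_contra hno
      push Not at hno
      rw [pt_other hno.1 hno.2] at e2
      omega
    rcases hu with rfl | rfl
    · rcases hv with rfl | rfl
      · exact absurd rfl huv
      · left
        rw [pt_right huv] at e2
        exact ⟨rfl, rfl, e2.symm⟩
    · rcases hv with rfl | rfl
      · right
        rw [pt_right huv'] at e1
        exact ⟨rfl, rfl, e1.symm⟩
      · exact absurd rfl huv
  obtain ⟨u', v', j, h1, h2, ⟨h3, h4⟩ | ⟨h3, h4⟩⟩ := hg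
  · rw [mk_val h him.le] at h3
    rcases key u' v' j h1 h2.le h3 with ⟨rfl, rfl, rfl⟩ | ⟨rfl, rfl, rfl⟩
    · right
      apply Subtype.ext
      rw [mk_val h (by omega), h4]
    · left
      apply Subtype.ext
      rw [mk_val h (by omega), h4, pt_symm (by omega)]
      congr 1
      omega
  · rw [mk_val h him.le] at h4
    rcases key u' v' (j + 1) h1 (by omega) h4 with ⟨rfl, rfl, h5⟩ | ⟨rfl, rfl, h5⟩
    · left
      apply Subtype.ext
      rw [mk_val h (by omega), h3]
      congr 1
      omega
    · right
      apply Subtype.ext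
      rw [mk_val h (by omega), h3, pt_symm (by omega)]
      congr 1
      omega

omit [Fintype V] in
/-- **Distances to the points of an edge.** -/
theorem dist_edge (hG : G.Connected) (q : PowVertex G m) {u v : V} (h : G.Adj u v)
    (hq : ∀ i, 0 < i → i < m → q ≠ mk m h i) {t : ℕ} (ht : t ≤ m) :
    (Pow G m).dist q (mk m h t) = min ((Pow G m).dist q (br G m u) + t)
      ((Pow G m).dist q (br G m v) + (m - t)) := by
  have hc := connected_pow (m := m) hG
  apply le_antisymm
  · apply le_min
    · have h1 := hc.dist_triangle (u := q) (v := br G m u) (w := mk m h t)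
      have h2 := dist_mk_le (m := m) h (Nat.zero_le t) ht
      rw [mk_zero] at h2
      omega
    · have h1 := hc.dist_triangle (u := q) (v := br G m v) (w := mk m h t)
      have h2 := dist_mk_le (m := m) h ht le_rfl
      rw [mk_top, SimpleGraph.dist_comm] at h2
      omega
  · have key : ∀ (n t : ℕ), t ≤ m → (Pow G m).dist q (mk m h t) = n →
        min ((Pow G m).dist q (br G m u) + t) ((Pow G m).dist q (br G m v) + (m - t)) ≤ n := by
      intro n
      induction n using Nat.strong_induction_on with
      | _ n ih =>
        intro t ht hn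
        rcases Nat.eq_zero_or_pos t with rfl | ht0
        · rw [mk_zero] at hn
          exact (min_le_left _ _).trans (by omega)
        rcases Nat.eq_or_lt_of_le ht with rfl | htm
        · rw [mk_top] at hn
          exact (min_le_right _ _).trans (by omega)
        -- interior point
        obtain ⟨p, hp⟩ := hc.exists_walk_length_eq_dist (mk m h t) q
        rw [SimpleGraph.dist_comm, hn] at hp
        cases p with
        | nil => exact absurd rfl (hq t ht0 htm)
        | @cons _ g _ hadj p =>
          rw [Walk.length_cons] at hp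
          have hg : (Pow G m).dist q g ≤ p.length := by
            rw [SimpleGraph.dist_comm]
            exact dist_le p
          rcases adj_interior h ht0 htm hadj with rfl | rfl
          · have := ih _ (by omega) (t - 1) (by omega) rfl
            omega
          · have := ih _ (by omega) (t + 1) (by omega) rfl
            omega
    exact key _ t ht rfl

omit [Fintype V] in
theorem br_ne_mk {u v w : V} (h : G.Adj u v) {i : ℕ} (hi0 : 0 < i) (him : i < m) :
    br G m w ≠ mk m h i := by
  intro he
  have he' := congrArg Subtype.val he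
  rw [mk_val h him.le] at he'
  have e1 := congrFun he' u
  have e2 := congrFun he' v
  rw [pt_left h.ne] at e1
  rw [pt_right h.ne] at e2
  simp only [br, Pi.single_apply] at e1 e2
  have hne := h.ne
  split_ifs at e1 with h1
  · split_ifs at e2 with h2
    · exact hne (h1.trans h2.symm)
    · omega
  · omega

/-- Distance from a point of an edge to a branch vertex. -/
theorem dist_mk_br (hG : G.Connected) {y z : V} (h : G.Adj y z) {i : ℕ} (hi : i ≤ m) (b : V) :
    (Pow G m).dist (mk m h i) (br G m b) = min (m * G.dist y b + i) (m * G.dist z b + (m - i)) := by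
  rw [SimpleGraph.dist_comm, dist_edge hG (br G m b) h (fun j h1 h2 => br_ne_mk h h1 h2) hi,
    SimpleGraph.dist_comm, dist_br hG, SimpleGraph.dist_comm (u := br G m b), dist_br hG]

end Points

/-! ### Evasion from one-traverse escapes -/

section Evasion

variable {V : Type*} [DecidableEq V] {G : SimpleGraph V} {m : ℕ}

/-- The list of answers, starting from the list `L`, in the `j` rounds in which the robber moves
from `a` towards `b`. -/
noncomputable def ext (σ : List ℕ → PowVertex G m) (L : List ℕ) {a b : V} (h : G.Adj a b) :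
    ℕ → List ℕ
  | 0 => L
  | j + 1 => ext σ L h j ++ [(Pow G m).dist (σ (ext σ L h j)) (mk m h (j + 1))]

theorem answers_congr {X : Type*} {H : SimpleGraph X} {σ : List ℕ → X} {r r' : ℕ → X} {n : ℕ}
    (h : ∀ t < n, r t = r' t) : answers H σ r n = answers H σ r' n := by
  induction n with
  | zero => rfl
  | succ n ih =>
    rw [answers, answers, ih (fun t ht => h t (by omega)), h n (Nat.lt_succ_self n)]

/-- The robber evades if from every vertex of `U` he has an escape along one edge. -/
theorem not_copWinnable (hm : 0 < m) (U : Set V)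
    (hstart : ∀ p : PowVertex G m, ∃ a ∈ U, ∃ a' ∈ U, a ≠ a' ∧
      (Pow G m).dist p (br G m a) = (Pow G m).dist p (br G m a'))
    (hstep : ∀ (σ : List ℕ → PowVertex G m) (L : List ℕ), ∀ a ∈ U, ∃ b ∈ U, ∃ b' ∈ U,
      ∃ (h : G.Adj a b) (h' : G.Adj a b'), b ≠ b' ∧ ∀ j ≤ m, ext σ L h j = ext σ L h' j) :
    ¬ CopWinnable (Pow G m) := by
  rintro ⟨σ, hσ⟩
  obtain ⟨a0, ha0, a0', ha0', hne0, hd0⟩ := hstart (σ [])
  -- the next vertices
  have hstep' : ∀ (s : List ℕ × U), ∃ (b b' : U) (h : G.Adj s.2.1 b.1) (h' : G.Adj s.2.1 b'.1),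
      b.1 ≠ b'.1 ∧ ∀ j ≤ m, ext σ s.1 h j = ext σ s.1 h' j := by
    intro s
    obtain ⟨b, hb, b', hb', h, h', h1, h2⟩ := hstep σ s.1 s.2.1 s.2.2
    exact ⟨⟨b, hb⟩, ⟨b', hb'⟩, h, h', h1, h2⟩
  choose nb nb' hadj hadj' hne heq using hstep'
  -- the states at the arrival times
  let st : ℕ → List ℕ × U := fun k => Nat.rec
    ([(Pow G m).dist (σ []) (br G m a0)], ⟨a0, ha0⟩)
    (fun _ s => (ext σ s.1 (hadj s) m, nb s)) k
  have st_zero : st 0 = ([(Pow G m).dist (σ []) (br G m a0)], ⟨a0, ha0⟩) := rfl
  have st_succ : ∀ k, st (k + 1) = (ext σ (st k).1 (hadj (st k)) m, nb (st k)) := fun k => rfl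
  -- the trajectory
  let r : ℕ → PowVertex G m := fun t => mk m (hadj (st (t / m))) (t % m)
  have hr1 : ∀ k j, j < m → r (m * k + j) = mk m (hadj (st k)) j := by
    intro k j hj
    have e1 : (m * k + j) / m = k := by
      rw [Nat.mul_add_div hm, Nat.div_eq_of_lt hj, add_zero]
    have e2 : (m * k + j) % m = j := by
      rw [Nat.mul_add_mod, Nat.mod_eq_of_lt hj]
    simp only [r]
    rw [e1, e2]
  have hr : ∀ k j, j ≤ m → r (m * k + j) = mk m (hadj (st k)) j := by
    intro k j hj
    rcases Nat.eq_or_lt_of_le hj with h | hj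
    · have e : m * k + j = m * (k + 1) + 0 := by rw [h]; ring
      rw [e, hr1 (k + 1) 0 hm, mk_zero, h, mk_top, st_succ]
    · exact hr1 k j hj
  have hlegal : Legal (Pow G m) r := by
    intro t
    right
    have e : t = m * (t / m) + t % m := (Nat.div_add_mod t m).symm
    have hlt : t % m < m := Nat.mod_lt _ hm
    have e1 : r t = mk m (hadj (st (t / m))) (t % m) := rfl
    have e2 : r (t + 1) = mk m (hadj (st (t / m))) (t % m + 1) := by
      rw [← hr (t / m) (t % m + 1) hlt, ← add_assoc, ← e]
    rw [e1, e2]
    exact adj_mk _ hlt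
  -- the answers along the trajectory
  have hans0 : ∀ k, answers (Pow G m) σ r (m * k + 1) = (st k).1 →
      ∀ j ≤ m, answers (Pow G m) σ r (m * k + 1 + j) = ext σ (st k).1 (hadj (st k)) j := by
    intro k hk j
    induction j with
    | zero => intro _; rw [add_zero, hk]; rfl
    | succ j ih =>
      intro hj
      have e : m * k + 1 + (j + 1) = (m * k + 1 + j) + 1 := by ring
      rw [e, answers, ih (by omega), ext]
      congr 3
      rw [show m * k + 1 + j = m * k + (j + 1) by ring]
      exact hr k (j + 1) hj
  have hans : ∀ k, answers (Pow G m) σ r (m * k + 1) = (st k).1 := by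
    intro k
    induction k with
    | zero =>
      rw [mul_zero, zero_add, answers, st_zero]
      have e : r 0 = br G m a0 := by
        have := hr 0 0 (Nat.zero_le _)
        rw [mul_zero, zero_add, mk_zero, st_zero] at this
        exact this
      rw [e]
      rfl
    | succ k ih =>
      have h1 := hans0 k ih m le_rfl
      rw [show m * (k + 1) + 1 = m * k + 1 + m by ring, h1, st_succ]
  obtain ⟨t, ht⟩ := hσ r hlegal
  rcases Nat.eq_zero_or_pos t with rfl | ht0
  · -- time `0`
    have h1 := ht (fun _ => br G m a0') (fun _ => Or.inl rfl) (by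
      have e : r 0 = br G m a0 := by
        have := hr 0 0 (Nat.zero_le _)
        rw [mul_zero, zero_add, mk_zero, st_zero] at this
        exact this
      simp only [answers, e, hd0])
    have e : r 0 = br G m a0 := by
      have := hr 0 0 (Nat.zero_le _)
      rw [mul_zero, zero_add, mk_zero, st_zero] at this
      exact this
    rw [e] at h1
    exact hne0 (br_injective hm h1).symm
  · -- a positive time `t = m * k + j` with `1 ≤ j ≤ m`
    obtain ⟨k, j, hj1, hjm, rfl⟩ : ∃ k j, 1 ≤ j ∧ j ≤ m ∧ t = m * k + j := by
      refine ⟨(t - 1) / m, (t - 1) % m + 1, by omega, Nat.mod_lt _ hm, ?_⟩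
      have := Nat.div_add_mod (t - 1) m
      omega
    let s := st k
    let r' : ℕ → PowVertex G m := fun u => if u ≤ m * k then r u else mk m (hadj' s) (min (u - m * k) m)
    have hr'1 : ∀ u ≤ m * k, r' u = r u := fun u hu => if_pos hu
    have hr'2 : ∀ i ≤ m, r' (m * k + i) = mk m (hadj' s) i := by
      intro i hi
      rcases Nat.eq_zero_or_pos i with rfl | hi0
      · have e : r (m * k + 0) = mk m (hadj s) 0 := hr k 0 (Nat.zero_le _)
        rw [hr'1 _ (by omega), e, mk_zero, mk_zero]
      · have : ¬ m * k + i ≤ m * k := by omega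
        simp only [r', this, if_false]
        rw [show m * k + i - m * k = i by omega, min_eq_left hi]
    have hr'3 : ∀ i, m ≤ i → r' (m * k + i) = mk m (hadj' s) m := by
      intro i hi
      have : ¬ m * k + i ≤ m * k := by omega
      simp only [r', this, if_false]
      rw [show m * k + i - m * k = i by omega, min_eq_right hi]
    have hlegal' : Legal (Pow G m) r' := by
      intro u
      rcases Nat.lt_or_ge u (m * k) with hu | hu
      · rw [hr'1 u hu.le, hr'1 (u + 1) hu]
        exact hlegal u
      · obtain ⟨i, rfl⟩ := Nat.exists_eq_add_of_le hu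
        rcases Nat.lt_or_ge i m with hi | hi
        · right
          rw [hr'2 i hi.le, show m * k + i + 1 = m * k + (i + 1) by ring, hr'2 (i + 1) hi]
          exact adj_mk _ hi
        · left
          rw [hr'3 i hi, show m * k + i + 1 = m * k + (i + 1) by ring, hr'3 (i + 1) (by omega)]
    have hans' : ∀ i ≤ m, answers (Pow G m) σ r' (m * k + 1 + i) = ext σ s.1 (hadj' s) i := by
      intro i
      induction i with
      | zero =>
        intro _
        have : answers (Pow G m) σ r' (m * k + 1) = answers (Pow G m) σ r (m * k + 1) :=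
          answers_congr fun u hu => hr'1 u (by omega)
        rw [add_zero, this, hans k]
        rfl
      | succ i ih =>
        intro hi
        have e : m * k + 1 + (i + 1) = (m * k + 1 + i) + 1 := by ring
        rw [e, answers, ih (by omega), ext]
        congr 3
        rw [show m * k + 1 + i = m * k + (i + 1) by ring]
        exact hr'2 (i + 1) hi
    have h1 := ht r' hlegal' (by
      rw [show m * k + j + 1 = m * k + 1 + j by ring, hans' j hjm, hans0 k (hans k) j hjm]
      exact (heq s j hjm).symm)
    rw [hr'2 j hjm, hr k j hjm] at h1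
    have h2 := congrFun (congrArg Subtype.val h1) (nb s).1
    rw [mk_val _ hjm, mk_val _ hjm, pt_other (hadj s).ne' (hne s), pt_right (hadj s).ne] at h2
    omega

end Evasion

/-! ### The graph -/

section Graph

/-- The clique vertices: the two-element subsets of the set of landmarks. -/
abbrev Pair : Type := {A : Finset (Fin 40) // A.card = 2}

/-- Landmarks and clique vertices. -/
abbrev Vtx : Type := Fin 40 ⊕ Pair

/-- Two clique vertices are adjacent; the landmark `i` is adjacent to the clique vertex `A` if
`i ∉ A`. -/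
def Gr : SimpleGraph Vtx where
  Adj x y := match x, y with
    | Sum.inl _, Sum.inl _ => False
    | Sum.inl i, Sum.inr B => i ∉ B.1
    | Sum.inr A, Sum.inl j => j ∉ A.1
    | Sum.inr A, Sum.inr B => A ≠ B
  symm := ⟨by
    rintro (i | A) (j | B) h
    · exact h
    · exact h
    · exact h
    · exact h.symm⟩
  loopless := ⟨by
    rintro (i | A) h
    · exact h
    · exact h rfl⟩

theorem exists_two (J : Finset (Fin 40)) (D : Finset Pair) (hJ : J.card ≤ 23)
    (hD : D.card ≤ 82) : ∃ B B' : Pair, B ≠ B' ∧ Disjoint B.1 J ∧ Disjoint B'.1 J ∧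
      B ∉ D ∧ B' ∉ D := by
  classical
  have h1 : 17 ≤ (Jᶜ).card := by
    rw [Finset.card_compl, Fintype.card_fin]
    omega
  have h2 : 136 ≤ ((Jᶜ).powersetCard 2).card := by
    rw [Finset.card_powersetCard]
    have h3 : Nat.choose 17 2 ≤ Nat.choose (Jᶜ).card 2 := Nat.choose_le_choose 2 h1
    have h4 : Nat.choose 17 2 = 136 := by decide
    omega
  have h3 : (D.image Subtype.val).card ≤ 82 := Finset.card_image_le.trans hD
  have h4 : 1 < ((Jᶜ).powersetCard 2 \ D.image Subtype.val).card := by
    have := Finset.le_card_sdiff (D.image Subtype.val) ((Jᶜ).powersetCard 2)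
    omega
  obtain ⟨B, hB, B', hB', hne⟩ := Finset.one_lt_card.1 h4
  rw [Finset.mem_sdiff, Finset.mem_powersetCard] at hB hB'
  refine ⟨⟨B, hB.1.2⟩, ⟨B', hB'.1.2⟩, fun h => hne (congrArg Subtype.val h), ?_, ?_, ?_, ?_⟩
  · exact Finset.disjoint_left.2 fun x hx => Finset.mem_compl.1 (hB.1.1 hx)
  · exact Finset.disjoint_left.2 fun x hx => Finset.mem_compl.1 (hB'.1.1 hx)
  · intro h
    exact hB.2 (Finset.mem_image_of_mem _ h)
  · intro h
    exact hB'.2 (Finset.mem_image_of_mem _ h)

theorem adj_rr {A B : Pair} (h : A ≠ B) : Gr.Adj (Sum.inr A) (Sum.inr B) := h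

theorem adj_lr {i : Fin 40} {B : Pair} (h : i ∉ B.1) : Gr.Adj (Sum.inl i) (Sum.inr B) := h

theorem connected_Gr : Gr.Connected := by
  obtain ⟨A0, -⟩ := exists_two ∅ ∅ (by simp) (by simp)
  have hr : ∀ x, Gr.Reachable (Sum.inr A0) x := by
    rintro (i | B)
    · obtain ⟨B, B', hne, h1, h2, -, -⟩ := exists_two {i} ∅ (by simp) (by simp)
      rw [Finset.disjoint_singleton_right] at h1 h2
      by_cases hB : A0 = B
      · subst hB
        exact (adj_lr h1).symm.reachable
      · exact (adj_rr hB).reachable.trans (adj_lr h1).symm.reachable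
    · by_cases hB : A0 = B
      · subst hB
        exact Reachable.refl _
      · exact (adj_rr hB).reachable
  have : Nonempty Vtx := ⟨Sum.inr A0⟩
  exact Connected.mk fun x y => (hr x).symm.trans (hr y)

theorem dist_rr (A B : Pair) : Gr.dist (Sum.inr A) (Sum.inr B) = if A = B then 0 else 1 := by
  split_ifs with h
  · rw [h, dist_self]
  · exact dist_eq_one_iff_adj.2 (adj_rr h)

theorem dist_lr (i : Fin 40) (B : Pair) :
    Gr.dist (Sum.inl i) (Sum.inr B) = if i ∈ B.1 then 2 else 1 := by
  split_ifs with h
  · obtain ⟨A, -, -, h1, -, -, -⟩ := exists_two {i} ∅ (by simp) (by simp)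
    rw [Finset.disjoint_singleton_right] at h1
    have hne : A ≠ B := by
      rintro rfl
      exact h1 h
    have h2 : Gr.dist (Sum.inl i) (Sum.inr B) ≤ 2 :=
      dist_le (Walk.cons (adj_lr h1) (Walk.cons (adj_rr hne) Walk.nil))
    have h3 : Gr.dist (Sum.inl i) (Sum.inr B) ≠ 0 := by
      intro h4
      have := connected_Gr.dist_eq_zero_iff.1 h4
      cases this
    have h4 : Gr.dist (Sum.inl i) (Sum.inr B) ≠ 1 := by
      intro h5
      have := dist_eq_one_iff_adj.1 h5
      exact this h
    omega
  · exact dist_eq_one_iff_adj.2 (adj_lr h)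

theorem resolving_Gr : Resolving Gr (Finset.univ.map ⟨Sum.inl, Sum.inl_injective⟩) := by
  intro x y h
  have h' : ∀ i : Fin 40, Gr.dist x (Sum.inl i) = Gr.dist y (Sum.inl i) := fun i =>
    h (Sum.inl i) (Finset.mem_map.2 ⟨i, Finset.mem_univ _, rfl⟩)
  rcases x with i | A
  · have := h' i
    rw [dist_self] at this
    exact (connected_Gr.dist_eq_zero_iff.1 this.symm).symm
  · rcases y with j | B
    · have := h' j
      rw [dist_self] at this
      exact connected_Gr.dist_eq_zero_iff.1 this
    · have hAB : A = B := by
        apply Subtype.ext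
        ext i
        have := h' i
        rw [SimpleGraph.dist_comm, dist_lr, SimpleGraph.dist_comm, dist_lr] at this
        by_cases h1 : i ∈ A.1 <;> by_cases h2 : i ∈ B.1 <;> simp [h1, h2] at this ⊢
      rw [hAB]

theorem metricDim_le : metricDim Gr ≤ 40 := by
  apply Nat.sInf_le
  exact ⟨_, by simp, resolving_Gr⟩

/-- **What a probe can see.** -/
theorem probe (m : ℕ) (p : PowVertex Gr m) : ∃ (I : Finset (Fin 40)) (D : Finset Pair) (g1 g2 : ℕ),
    I.card ≤ 1 ∧ D.card ≤ 2 ∧ g1 ≤ g2 ∧
    (∀ B : Pair, B ∉ D → Disjoint B.1 I → (Pow Gr m).dist p (br Gr m (Sum.inr B)) = g1) ∧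
    (∀ B : Pair, B ∉ D → ¬ Disjoint B.1 I → (Pow Gr m).dist p (br Gr m (Sum.inr B)) = g2) ∧
    (∀ B ∈ D, (Pow Gr m).dist p (br Gr m (Sum.inr B)) ≤ g1) ∧
    (∀ (A B : Pair) (h : Gr.Adj (Sum.inr A) (Sum.inr B)), B ∉ D →
      ∀ i, 0 < i → i < m → p ≠ mk m h i) := by
  classical
  rcases eq_mk_or p with ⟨u, rfl⟩ | ⟨u, v, h, s, hs, rfl⟩
  · rcases u with i | A
    · refine ⟨{i}, ∅, m, 2 * m, by simp, by simp, by omega, ?_, ?_, ?_, ?_⟩
      · intro B _ hB
        rw [Finset.disjoint_singleton_right] at hB
        rw [dist_br connected_Gr, dist_lr, if_neg hB, mul_one]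
      · intro B _ hB
        rw [Finset.disjoint_singleton_right, not_not] at hB
        rw [dist_br connected_Gr, dist_lr, if_pos hB, mul_comm]
      · simp
      · intro A B h _ j h1 h2
        exact br_ne_mk h h1 h2
    · refine ⟨∅, {A}, m, m, by simp, by simp, le_rfl, ?_, ?_, ?_, ?_⟩
      · intro B hB _
        rw [Finset.mem_singleton] at hB
        rw [dist_br connected_Gr, dist_rr, if_neg (Ne.symm hB), mul_one]
      · intro B _ hB
        simp at hB
      · intro B hB
        rw [Finset.mem_singleton] at hB
        rw [hB, dist_self]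
        exact Nat.zero_le _
      · intro A B h _ j h1 h2
        exact br_ne_mk h h1 h2
  · -- a point of an edge
    have hint : ∀ (A B : Pair) (h' : Gr.Adj (Sum.inr A) (Sum.inr B)) (i : ℕ), 0 < i → i < m →
        mk m h s = mk m h' i → (u = Sum.inr A ∧ v = Sum.inr B) ∨ (u = Sum.inr B ∧ v = Sum.inr A) := by
      intro A B h' i hi0 him he
      have he' := congrArg Subtype.val he
      rw [mk_val h hs, mk_val h' him.le] at he'
      have e1 := congrFun he' (Sum.inr A)
      have e2 := congrFun he' (Sum.inr B)
      rw [pt_left h'.ne] at e1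
      rw [pt_right h'.ne] at e2
      have hA : Sum.inr A = u ∨ Sum.inr A = v := by
        by_contra hno
        push Not at hno
        rw [pt_other hno.1 hno.2] at e1
        omega
      have hB : Sum.inr B = u ∨ Sum.inr B = v := by
        by_contra hno
        push Not at hno
        rw [pt_other hno.1 hno.2] at e2
        omega
      have hne := h'.ne
      rcases hA with hA | hA
      · rcases hB with hB | hB
        · exact absurd (hA.trans hB.symm) hne
        · exact Or.inl ⟨hA.symm, hB.symm⟩
      · rcases hB with hB | hB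
        · exact Or.inr ⟨hB.symm, hA.symm⟩
        · exact absurd (hA.trans hB.symm) hne
    have hlr : ∀ (i : Fin 40) (A : Pair) (h : Gr.Adj (Sum.inl i) (Sum.inr A)) (s : ℕ), s ≤ m →
        (∀ (A' B : Pair) (h' : Gr.Adj (Sum.inr A') (Sum.inr B)), B ∉ ({A} : Finset Pair) →
          ∀ i, 0 < i → i < m → mk m h s ≠ mk m h' i) →
        ∃ (I : Finset (Fin 40)) (D : Finset Pair) (g1 g2 : ℕ),
          I.card ≤ 1 ∧ D.card ≤ 2 ∧ g1 ≤ g2 ∧
          (∀ B : Pair, B ∉ D → Disjoint B.1 I →
            (Pow Gr m).dist (mk m h s) (br Gr m (Sum.inr B)) = g1) ∧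
          (∀ B : Pair, B ∉ D → ¬ Disjoint B.1 I →
            (Pow Gr m).dist (mk m h s) (br Gr m (Sum.inr B)) = g2) ∧
          (∀ B ∈ D, (Pow Gr m).dist (mk m h s) (br Gr m (Sum.inr B)) ≤ g1) ∧
          (∀ (A B : Pair) (h' : Gr.Adj (Sum.inr A) (Sum.inr B)), B ∉ D →
            ∀ i, 0 < i → i < m → mk m h s ≠ mk m h' i) := by
      intro i A h s hs hi
      refine ⟨{i}, {A}, min (m + s) (2 * m - s), 2 * m - s, by simp, by simp, by omega, ?_, ?_, ?_,
        hi⟩
      · intro B hBA hB
        rw [Finset.disjoint_singleton_right] at hB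
        rw [Finset.mem_singleton] at hBA
        rw [dist_mk_br connected_Gr h hs, dist_lr, dist_rr, if_neg hB, if_neg (Ne.symm hBA)]
        omega
      · intro B hBA hB
        rw [Finset.disjoint_singleton_right, not_not] at hB
        rw [Finset.mem_singleton] at hBA
        rw [dist_mk_br connected_Gr h hs, dist_lr, dist_rr, if_pos hB, if_neg (Ne.symm hBA)]
        omega
      · intro B hBA
        rw [Finset.mem_singleton] at hBA
        subst hBA
        have hB : i ∉ B.1 := h
        rw [dist_mk_br connected_Gr h hs, dist_lr, dist_rr, if_neg hB, if_pos rfl]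
        omega
    rcases u with i | A
    · rcases v with j | A
      · exact h.elim
      · apply hlr i A h s hs
        intro A' B h' _ j h1 h2 he
        rcases hint A' B h' j h1 h2 he with ⟨h3, -⟩ | ⟨h3, -⟩
        · cases h3
        · cases h3
    · rcases v with i | A'
      · have e : mk m h s = mk m h.symm (m - s) := by
          apply Subtype.ext
          rw [mk_val h hs, mk_val h.symm (by omega), pt_symm hs]
        rw [e]
        apply hlr i A h.symm (m - s) (by omega)
        intro A' B h' _ j h1 h2 he
        rw [← e] at he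
        rcases hint A' B h' j h1 h2 he with ⟨-, h3⟩ | ⟨-, h3⟩
        · cases h3
        · cases h3
      · refine ⟨∅, {A, A'}, min (m + s) (2 * m - s), min (m + s) (2 * m - s), by simp,
          Finset.card_le_two, le_rfl, ?_, ?_, ?_, ?_⟩
        · intro B hB _
          simp only [Finset.mem_insert, Finset.mem_singleton, not_or] at hB
          rw [dist_mk_br connected_Gr h hs, dist_rr, dist_rr, if_neg (Ne.symm hB.1),
            if_neg (Ne.symm hB.2)]
          omega
        · intro B _ hB
          simp at hB
        · intro B hB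
          have hne : A ≠ A' := h
          simp only [Finset.mem_insert, Finset.mem_singleton] at hB
          rw [dist_mk_br connected_Gr h hs, dist_rr, dist_rr]
          rcases hB with rfl | rfl
          · rw [if_pos rfl, if_neg hne.symm]
            omega
          · rw [if_neg hne, if_pos rfl]
            omega
        · intro A1 B h' hB j h1 h2 he
          rcases hint A1 B h' j h1 h2 he with ⟨-, h3⟩ | ⟨h3, -⟩
          · apply hB
            rw [Sum.inr_injective h3]
            simp
          · apply hB
            rw [Sum.inr_injective h3]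
            simp

/-- The robber evades on `G^{1/m}` for `1 ≤ m ≤ 41`. -/
theorem not_winnable (m : ℕ) (hm : 0 < m) (hm' : m ≤ 41) : ¬ CopWinnable (Pow Gr m) := by
  classical
  choose I D g1 g2 hI hD hg hd1 hd2 hd3 hd4 using probe m
  apply not_copWinnable hm (Set.range Sum.inr)
  · intro p
    obtain ⟨B, B', hne, h1, h2, h3, h4⟩ := exists_two (I p) (D p) ((hI p).trans (by omega))
      ((hD p).trans (by omega))
    refine ⟨_, ⟨B, rfl⟩, _, ⟨B', rfl⟩, fun h => hne (Sum.inr_injective h), ?_⟩
    rw [hd1 p B h3 h1, hd1 p B' h4 h2]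
  · rintro σ L _ ⟨A, rfl⟩
    -- the default answers
    let dflt : ℕ → List ℕ := fun j => Nat.rec L (fun j l =>
      l ++ [min ((Pow Gr m).dist (σ l) (br Gr m (Sum.inr A)) + (j + 1))
        (g1 (σ l) + (m - (j + 1)))]) j
    have hdflt : ∀ j, dflt (j + 1) = dflt j ++
      [min ((Pow Gr m).dist (σ (dflt j)) (br Gr m (Sum.inr A)) + (j + 1))
        (g1 (σ (dflt j)) + (m - (j + 1)))] := fun j => rfl
    let J : Finset (Fin 40) := A.1 ∪
      ((Finset.range m).filter (fun j => m < 2 * (j + 1))).biUnion fun j => I (σ (dflt j))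
    let DD : Finset Pair := (Finset.range m).biUnion fun j => D (σ (dflt j))
    have hJ : J.card ≤ 23 := by
      have h1 : (((Finset.range m).filter (fun j => m < 2 * (j + 1))).biUnion
          fun j => I (σ (dflt j))).card ≤
          ((Finset.range m).filter (fun j => m < 2 * (j + 1))).card * 1 :=
        Finset.card_biUnion_le_card_mul _ _ _ fun j _ => hI _
      have h2 : ((Finset.range m).filter (fun j => m < 2 * (j + 1))).card ≤ 21 := by
        have : (Finset.range m).filter (fun j => m < 2 * (j + 1)) ⊆ Finset.Ico (m / 2) m := by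
          intro j hj
          rw [Finset.mem_filter, Finset.mem_range] at hj
          rw [Finset.mem_Ico]
          omega
        have := Finset.card_le_card this
        rw [Nat.card_Ico] at this
        omega
      have h3 := Finset.card_union_le A.1
        (((Finset.range m).filter (fun j => m < 2 * (j + 1))).biUnion fun j => I (σ (dflt j)))
      have h4 := A.2
      change J.card ≤ _ at h3
      omega
    have hDD : DD.card ≤ 82 := by
      have h1 : DD.card ≤ (Finset.range m).card * 2 :=
        Finset.card_biUnion_le_card_mul _ _ _ fun j _ => hD _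
      rw [Finset.card_range] at h1
      omega
    have key : ∀ B : Pair, Disjoint B.1 J → B ∉ DD → ∃ h : Gr.Adj (Sum.inr A) (Sum.inr B),
        ∀ j ≤ m, ext σ L h j = dflt j := by
      intro B hBJ hBD
      have hdisj : Disjoint B.1 A.1 := hBJ.mono_right Finset.subset_union_left
      have hne : A ≠ B := by
        rintro rfl
        rw [disjoint_self, Finset.bot_eq_empty] at hdisj
        have := A.2
        rw [hdisj] at this
        simp at this
      refine ⟨adj_rr hne, ?_⟩
      intro j
      induction j with
      | zero => intro _; rfl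
      | succ j ih =>
        intro hj
        rw [ext, ih (by omega), hdflt]
        have hnD : B ∉ D (σ (dflt j)) := fun h' =>
          hBD (Finset.mem_biUnion.2 ⟨j, Finset.mem_range.2 (by omega), h'⟩)
        have hdist := dist_edge connected_Gr (σ (dflt j)) (adj_rr hne)
          (hd4 (σ (dflt j)) A B (adj_rr hne) hnD) (t := j + 1) hj
        congr 2
        rw [hdist]
        by_cases hBI : Disjoint B.1 (I (σ (dflt j)))
        · rw [hd1 _ B hnD hBI]
        · -- then `j + 1` is in the first half, and `A` does not meet the landmark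
          have hearly : 2 * (j + 1) ≤ m := by
            by_contra hcon
            apply hBI
            apply hBJ.mono_right
            intro x hx
            apply Finset.mem_union_right
            exact Finset.mem_biUnion.2 ⟨j, Finset.mem_filter.2 ⟨Finset.mem_range.2 (by omega),
              by omega⟩, hx⟩
          have hAI : Disjoint A.1 (I (σ (dflt j))) := by
            rw [Finset.disjoint_left]
            intro x hxA hxI
            rw [Finset.not_disjoint_iff] at hBI
            obtain ⟨y, hyB, hyI⟩ := hBI
            have hxy : x = y := Finset.card_le_one.1 (hI _) x hxI y hyI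
            subst hxy
            exact Finset.disjoint_left.1 hdisj hyB hxA
          have hA : (Pow Gr m).dist (σ (dflt j)) (br Gr m (Sum.inr A)) ≤ g1 (σ (dflt j)) := by
            by_cases hAD : A ∈ D (σ (dflt j))
            · exact hd3 _ A hAD
            · rw [hd1 _ A hAD hAI]
          rw [hd2 _ B hnD hBI]
          have := hg (σ (dflt j))
          omega
    obtain ⟨B, B', hne, h1, h2, h3, h4⟩ := exists_two J DD hJ hDD
    obtain ⟨hB, hB1⟩ := key B h1 h3
    obtain ⟨hB', hB1'⟩ := key B' h2 h4
    exact ⟨_, ⟨B, rfl⟩, _, ⟨B', rfl⟩, hB, hB', fun h => hne (Sum.inr_injective h),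
      fun j hj => (hB1 j hj).trans (hB1' j hj).symm⟩

end Graph

/-- There is a finite connected graph `G` for which `G^{1/(μ(G)+1)}` is not cop-winnable. -/
theorem result : ∃ (V : Type) (_ : Fintype V) (_ : DecidableEq V) (G : SimpleGraph V),
    G.Connected ∧ ¬ CopWinnable (Pow G (metricDim G + 1)) := by
  refine ⟨Vtx, inferInstance, inferInstance, Gr, connected_Gr, ?_⟩
  apply not_winnable
  · omega
  · have := metricDim_le
    omega

end Pool.Agent.Results.MP_e8bb91_co.SubdividedNotWinnable
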